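import Pool.Agent.H38.LR.S8.H20R2.EN.FLem
import Pool.Agent.H38.LR.S8.W378.DC.MP
import Pool.Agent.H38.LR.S8.H732R2.MT_B2

/-! Local factors: Mertens' products for the densities `1_{p ∤ n} / (p - 1)`. -/

set_option autoImplicit false

open Finset Filter

namespace Pool.Agent.Y882

open Pool.Agent.W23.DC

/-- the densities of `n - p` -/
noncomputable def gn (n p : ℕ) : ℝ := if p ∣ n then 0 else 1 / ((p : ℝ) - 1)

/-- the variable part of the singular series -/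
noncomputable def sgs (n : ℕ) : ℝ := ∏ p ∈ n.primeFactors.erase 2, (((p : ℝ) - 1) / ((p : ℝ) - 2))

theorem sq_prod (S : Finset ℕ) (hS : ∀ p ∈ S, 3 ≤ p) :
    (1 / 2 : ℝ) ≤ ∏ p ∈ S, (1 - 1 / ((p : ℝ) - 1) ^ 2) := by
  have h1 : ∀ N : ℕ, ∏ k ∈ Icc 3 (N + 3), (1 - 1 / ((k : ℝ) - 1) ^ 2) =
      ((N : ℝ) + 3) / (2 * ((N : ℝ) + 2)) := by
    intro N
    induction N with
    | zero => norm_num
    | succ N ih =>
      have e : Icc 3 (N + 1 + 3) = Icc 3 (N + 3 + 1) := by congr 1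
      rw [e, Finset.prod_Icc_succ_top (by omega), ih]
      push_cast
      have h2 : (N : ℝ) + 2 ≠ 0 := by positivity
      have h3 : (N : ℝ) + 3 ≠ 0 := by positivity
      have h4 : (N : ℝ) + 3 + 1 - 1 ≠ 0 := by
        have : (0 : ℝ) ≤ N := Nat.cast_nonneg N
        linarith
      field_simp
      ring
  obtain ⟨N, hN⟩ : ∃ N : ℕ, ∀ p ∈ S, p ≤ N + 3 := by
    refine ⟨S.sup id, fun p hp => ?_⟩
    have : p ≤ S.sup id := Finset.le_sup (f := id) hp
    omega
  have hsub : S ⊆ Icc 3 (N + 3) := fun p hp => mem_Icc.2 ⟨hS p hp, hN p hp⟩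
  have hfac : ∀ k ∈ Icc 3 (N + 3), 0 ≤ (1 - 1 / ((k : ℝ) - 1) ^ 2) ∧
      (1 - 1 / ((k : ℝ) - 1) ^ 2) ≤ 1 := by
    intro k hk
    rw [mem_Icc] at hk
    have h3 : (3 : ℝ) ≤ k := by exact_mod_cast hk.1
    have h4 : (0 : ℝ) < ((k : ℝ) - 1) ^ 2 := by nlinarith
    constructor
    · have : 1 / ((k : ℝ) - 1) ^ 2 ≤ 1 := by
        rw [div_le_one h4]; nlinarith
      linarith
    · have : 0 ≤ 1 / ((k : ℝ) - 1) ^ 2 := by positivity
      linarith
  have h2 : ∏ k ∈ Icc 3 (N + 3), (1 - 1 / ((k : ℝ) - 1) ^ 2) ≤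
      ∏ p ∈ S, (1 - 1 / ((p : ℝ) - 1) ^ 2) := by
    rw [← prod_sdiff hsub]
    have h5 : ∏ k ∈ Icc 3 (N + 3) \ S, (1 - 1 / ((k : ℝ) - 1) ^ 2) ≤ 1 :=
      prod_le_one (fun k hk => (hfac k (mem_sdiff.1 hk).1).1)
        (fun k hk => (hfac k (mem_sdiff.1 hk).1).2)
    have h6 : 0 ≤ ∏ p ∈ S, (1 - 1 / ((p : ℝ) - 1) ^ 2) :=
      prod_nonneg fun k hk => (hfac k (hsub hk)).1
    nlinarith
  refine le_trans ?_ h2
  rw [h1]
  have : (0 : ℝ) ≤ N := Nat.cast_nonneg N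
  rw [div_le_div_iff₀ (by norm_num) (by positivity)]
  linarith

/-- few large prime factors -/
theorem big_pf (n Y : ℕ) (hn : 1 ≤ n) (z : ℝ) (hz : 3 ≤ z) (hnY : (n : ℝ) ≤ Y)
    (S : Finset ℕ) (hS : S ⊆ n.primeFactors) (hSz : ∀ p ∈ S, z ≤ p) :
    ∑ p ∈ S, 1 / ((p : ℝ) - 2) ≤ 2 * Real.log Y / (z - 2) := by
  have h1 : (S.card : ℝ) ≤ 2 * Real.log Y := by
    have h2 := Pool.Agent.H732R2.B2.omega_log n (by omega)
    have h3 : (S.card : ℝ) ≤ n.primeFactors.card := by exact_mod_cast card_le_card hS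
    have h4 : Real.log n ≤ Real.log Y := Real.log_le_log (by exact_mod_cast hn) hnY
    linarith
  calc ∑ p ∈ S, 1 / ((p : ℝ) - 2) ≤ ∑ p ∈ S, 1 / (z - 2) := by
        apply sum_le_sum
        intro p hp
        have := hSz p hp
        exact one_div_le_one_div_of_le (by linarith) (by linarith)
    _ = S.card / (z - 2) := by rw [sum_const, nsmul_eq_mul, mul_one_div]
    _ ≤ _ := by
        apply div_le_div_of_nonneg_right h1 (by linarith)

open Classical in
/-- the product over the small primes -/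
theorem prod_low : ∃ c : ℝ, 0 < c ∧ ∀ (J n : ℕ) (Q : Finset ℕ), 1 ≤ n → Even n →
    (∀ p ∈ Q, p.Prime ∧ p < 2 ^ 2 ^ J) →
    ∑ p ∈ (n.primeFactors.erase 2).filter (fun p => p ∉ Q), 1 / ((p : ℝ) - 2) ≤ 1 →
    c / 2 ^ J * sgs n ≤ ∏ p ∈ Q, (1 - gn n p) := by
  obtain ⟨c, C, hc, -, H⟩ := Pool.Agent.Helper112.LP.mertens_prod
  refine ⟨c / 6, by positivity, ?_⟩
  intro J n Q hn hev hQ hbig
  have h1 := (H J).1
  -- the odd part of Q
  set R := Q.erase 2 with hR
  have hR3 : ∀ p ∈ R, p.Prime ∧ 3 ≤ p ∧ p < 2 ^ 2 ^ J := by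
    intro p hp
    rw [hR, mem_erase] at hp
    have := (hQ p hp.2).1.two_le
    exact ⟨(hQ p hp.2).1, by omega, (hQ p hp.2).2⟩
  have hg2 : gn n 2 = 0 := by
    unfold gn
    rw [if_pos hev.two_dvd]
  have e1 : ∏ p ∈ Q, (1 - gn n p) = ∏ p ∈ R, (1 - gn n p) := by
    by_cases h2 : 2 ∈ Q
    · rw [← mul_prod_erase Q _ h2, hg2, sub_zero, one_mul]
    · rw [hR, erase_eq_of_notMem h2]
  set s : ℕ → ℝ := fun p => ((p : ℝ) - 1) / ((p : ℝ) - 2) with hs
  have hsp : ∀ p : ℕ, 3 ≤ p → 1 ≤ s p := by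
    intro p hp
    have : (3 : ℝ) ≤ p := by exact_mod_cast hp
    simp only [hs]
    rw [le_div_iff₀ (by linarith)]
    linarith
  have e2 : ∏ p ∈ R, (1 - gn n p) = (∏ p ∈ R, (s p)⁻¹) * ∏ p ∈ R.filter (fun p => p ∣ n), s p := by
    rw [prod_filter, ← prod_mul_distrib]
    apply prod_congr rfl
    intro p hp
    have h3 : (3 : ℝ) ≤ p := by exact_mod_cast (hR3 p hp).2.1
    have h4 : (p : ℝ) - 1 ≠ 0 := by linarith
    have h5 : (p : ℝ) - 2 ≠ 0 := by linarith
    simp only [hs, gn]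
    split_ifs
    · rw [sub_zero]
      field_simp
    · field_simp
      ring
  have e3 : ∏ p ∈ R, (s p)⁻¹ = (∏ p ∈ R, (1 - 1 / (p : ℝ))) *
      ∏ p ∈ R, (1 - 1 / ((p : ℝ) - 1) ^ 2) := by
    rw [← prod_mul_distrib]
    apply prod_congr rfl
    intro p hp
    have h3 : (3 : ℝ) ≤ p := by exact_mod_cast (hR3 p hp).2.1
    have h4 : (p : ℝ) - 1 ≠ 0 := by linarith
    have h5 : (p : ℝ) - 2 ≠ 0 := by linarith
    have h6 : (p : ℝ) ≠ 0 := by linarith
    simp only [hs]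
    field_simp
    ring
  have h3 : c / 2 ^ J ≤ ∏ p ∈ R, (1 - 1 / (p : ℝ)) := by
    refine h1.trans ?_
    have hsub : R ⊆ (range (2 ^ 2 ^ J)).filter Nat.Prime := by
      intro p hp
      rw [mem_filter, mem_range]
      exact ⟨(hR3 p hp).2.2, (hR3 p hp).1⟩
    have hfac : ∀ p ∈ (range (2 ^ 2 ^ J)).filter Nat.Prime, 0 ≤ (1 - 1 / (p : ℝ)) ∧
        (1 - 1 / (p : ℝ)) ≤ 1 := by
      intro p hp
      rw [mem_filter] at hp
      have h7 : (2 : ℝ) ≤ p := by exact_mod_cast hp.2.two_le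
      constructor
      · have : 1 / (p : ℝ) ≤ 1 := by rw [div_le_one (by linarith)]; linarith
        linarith
      · have : 0 ≤ 1 / (p : ℝ) := by positivity
        linarith
    rw [← prod_sdiff hsub]
    have h5 : ∏ p ∈ (range (2 ^ 2 ^ J)).filter Nat.Prime \ R, (1 - 1 / (p : ℝ)) ≤ 1 :=
      prod_le_one (fun k hk => (hfac k (mem_sdiff.1 hk).1).1)
        (fun k hk => (hfac k (mem_sdiff.1 hk).1).2)
    have h6 : 0 ≤ ∏ p ∈ R, (1 - 1 / (p : ℝ)) :=
      prod_nonneg fun k hk => (hfac k (hsub hk)).1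
    nlinarith
  have h4 := sq_prod R (fun p hp => (hR3 p hp).2.1)
  have hcJ : 0 < c / 2 ^ J := by positivity
  have h5 : c / 2 ^ J * (1 / 2) ≤ ∏ p ∈ R, (s p)⁻¹ := by
    rw [e3]
    exact mul_le_mul h3 h4 (by norm_num) (hcJ.le.trans h3)
  -- the singular series
  have hpf3 : ∀ p ∈ n.primeFactors.erase 2, 3 ≤ p := by
    intro p hp
    rw [mem_erase] at hp
    have := (Nat.prime_of_mem_primeFactors hp.2).two_le
    omega
  have e4 : sgs n ≤ 3 * ∏ p ∈ R.filter (fun p => p ∣ n), s p := by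
    have h6 : sgs n = (∏ p ∈ (n.primeFactors.erase 2).filter (fun p => p ∈ Q), s p) *
        ∏ p ∈ (n.primeFactors.erase 2).filter (fun p => p ∉ Q), s p := by
      unfold sgs
      rw [prod_filter_mul_prod_filter_not]
    have h7 : (n.primeFactors.erase 2).filter (fun p => p ∈ Q) = R.filter (fun p => p ∣ n) := by
      ext p
      rw [mem_filter, mem_filter, mem_erase, hR, mem_erase, Nat.mem_primeFactors]
      constructor
      · rintro ⟨⟨h8, h9, h10, h11⟩, h12⟩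
        exact ⟨⟨h8, h12⟩, h10⟩
      · rintro ⟨⟨h8, h12⟩, h10⟩
        exact ⟨⟨h8, (hQ p h12).1, h10, by omega⟩, h12⟩
    have h8 : ∏ p ∈ (n.primeFactors.erase 2).filter (fun p => p ∉ Q), s p ≤ 3 := by
      calc ∏ p ∈ (n.primeFactors.erase 2).filter (fun p => p ∉ Q), s p ≤
          ∏ p ∈ (n.primeFactors.erase 2).filter (fun p => p ∉ Q),
            Real.exp (1 / ((p : ℝ) - 2)) := by
            apply Finset.prod_le_prod
            · intro p hp
              have := hsp p (hpf3 p (mem_filter.1 hp).1)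
              linarith
            · intro p hp
              have h9 : (3 : ℝ) ≤ p := by exact_mod_cast hpf3 p (mem_filter.1 hp).1
              have h10 := Real.add_one_le_exp (1 / ((p : ℝ) - 2))
              refine le_trans (le_of_eq ?_) h10
              have h11 : (p : ℝ) - 2 ≠ 0 := by linarith
              simp only [hs]
              field_simp
              ring
        _ = Real.exp (∑ p ∈ (n.primeFactors.erase 2).filter (fun p => p ∉ Q),
            1 / ((p : ℝ) - 2)) := by rw [Real.exp_sum]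
        _ ≤ Real.exp 1 := Real.exp_le_exp.2 hbig
        _ ≤ 3 := by
            have := Real.exp_one_lt_d9
            linarith
    have h9 : 0 ≤ ∏ p ∈ R.filter (fun p => p ∣ n), s p := by
      apply prod_nonneg
      intro p hp
      have := hsp p (hR3 p (mem_filter.1 hp).1).2.1
      linarith
    rw [h6, h7, mul_comm]
    exact mul_le_mul_of_nonneg_right h8 h9
  rw [e1, e2]
  have h9 : 0 ≤ ∏ p ∈ R.filter (fun p => p ∣ n), s p := by
    apply prod_nonneg
    intro p hp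
    have := hsp p (hR3 p (mem_filter.1 hp).1).2.1
    linarith
  calc c / 6 / 2 ^ J * sgs n ≤ c / 6 / 2 ^ J * (3 * ∏ p ∈ R.filter (fun p => p ∣ n), s p) :=
        mul_le_mul_of_nonneg_left e4 (by positivity)
    _ = c / 2 ^ J * (1 / 2) * ∏ p ∈ R.filter (fun p => p ∣ n), s p := by ring
    _ ≤ _ := mul_le_mul_of_nonneg_right h5 h9

/-- Mertens' formula for the densities `gn` -/
theorem mer_gn (ε₁ ζ η : ℝ) (hε : 0 < ε₁) (hζ : ζ ≤ 1) (hη : 0 < η) : ∃ Y0 : ℕ, ∀ Y : ℕ, Y0 ≤ Y →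
    ∀ n : ℕ, 1 ≤ n → n ≤ 2 * Y → Mer (pr Y ε₁ ζ) (tt Y) (gn n) ε₁ ζ η := by
  classical
  obtain ⟨N0, H⟩ := Pool.Agent.W378.DC.MP ε₁ (η / 2) hε (by positivity)
  have h1 : ∀ᶠ Y : ℕ in atTop, 2 * Real.log (2 * Y) / ((Y : ℝ) ^ ε₁ - 2) ≤ η / 2 := by
    have h2 : Tendsto (fun y : ℝ => 2 * Real.log (2 * y) / (y ^ ε₁ - 2)) atTop (nhds 0) := by
      have h3 : Tendsto (fun y : ℝ => Real.log y / y ^ ε₁) atTop (nhds 0) :=
        (isLittleO_log_rpow_atTop hε).tendsto_div_nhds_zero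
      have h4 : Tendsto (fun y : ℝ => (y ^ ε₁)⁻¹) atTop (nhds 0) :=
        (tendsto_rpow_atTop hε).inv_tendsto_atTop
      have h5 : Tendsto (fun y : ℝ => (2 * (Real.log 2 * (y ^ ε₁)⁻¹ + Real.log y / y ^ ε₁)) /
          (1 - 2 * (y ^ ε₁)⁻¹)) atTop (nhds ((2 * (Real.log 2 * 0 + 0)) / (1 - 2 * 0))) :=
        ((((h4.const_mul _).add h3).const_mul 2).div ((h4.const_mul 2).const_sub 1) (by norm_num))
      rw [show (2 * (Real.log 2 * 0 + 0)) / (1 - 2 * (0 : ℝ)) = 0 by norm_num] at h5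
      refine h5.congr' ?_
      filter_upwards [eventually_gt_atTop 0, (tendsto_rpow_atTop hε).eventually_gt_atTop 2]
        with y hy hy2
      have h6 : (y ^ ε₁) ≠ 0 := by positivity
      have h7 : y ^ ε₁ - 2 ≠ 0 := by linarith
      rw [Real.log_mul (by norm_num) hy.ne']
      field_simp
    exact tendsto_natCast_atTop_atTop.eventually (h2.eventually_le_const (by positivity))
  have h2 : ∀ᶠ Y : ℕ in atTop, (3 : ℝ) ≤ (Y : ℝ) ^ ε₁ :=
    tendsto_natCast_atTop_atTop.eventually ((tendsto_rpow_atTop hε).eventually_ge_atTop 3)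
  obtain ⟨N1, hN1⟩ := eventually_atTop.1 (h1.and (h2.and (eventually_ge_atTop 2)))
  refine ⟨max N0 N1, fun Y hY n hn hnY => ?_⟩
  obtain ⟨h3, h4, h5⟩ := hN1 Y ((le_max_right _ _).trans hY)
  intro a b ha hab hb
  have hYr : (2 : ℝ) ≤ Y := by exact_mod_cast h5
  have hlY : 0 < Real.log Y := Real.log_pos (by linarith)
  have hset : (pr Y ε₁ ζ).filter (fun p => a ≤ tt Y p ∧ tt Y p < b) = pr Y a b := by
    unfold pr
    rw [filter_filter]
    apply filter_congr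
    intro p _
    constructor
    · rintro ⟨⟨h6, h7, h8⟩, h9, h10⟩
      exact ⟨h6, h9, h10⟩
    · rintro ⟨h6, h9, h10⟩
      exact ⟨⟨h6, ha.trans h9, h10.trans_le hb⟩, h9, h10⟩
  rw [hset]
  have h6 := H Y ((le_max_left _ _).trans hY) a b ha hab (hb.trans hζ)
  have h7 : ∑ p ∈ pr Y a b, gn n p = ∑ p ∈ pr Y a b, 1 / ((p : ℝ) - 1) -
      ∑ p ∈ (pr Y a b).filter (fun p => p ∣ n), 1 / ((p : ℝ) - 1) := by
    rw [sum_filter, ← sum_sub_distrib]
    apply sum_congr rfl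
    intro p _
    unfold gn
    split_ifs <;> simp
  have hlarge : ∀ p ∈ pr Y a b, p.Prime ∧ (Y : ℝ) ^ ε₁ ≤ p := by
    intro p hp
    unfold pr at hp
    rw [mem_filter] at hp
    obtain ⟨h8, h9, h10, h11⟩ := hp
    refine ⟨h9, ?_⟩
    have hp0 : (0 : ℝ) < p := by exact_mod_cast h9.pos
    unfold tt at h10
    rw [le_div_iff₀ hlY] at h10
    rw [← Real.log_le_log_iff (by positivity) hp0, Real.log_rpow (by linarith)]
    nlinarith
  have h8 : ∑ p ∈ (pr Y a b).filter (fun p => p ∣ n), 1 / ((p : ℝ) - 1) ≤ η / 2 := by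
    have h9 := big_pf n (2 * Y) hn ((Y : ℝ) ^ ε₁) h4 (by exact_mod_cast hnY)
      ((pr Y a b).filter (fun p => p ∣ n)) (by
        intro p hp
        rw [mem_filter] at hp
        exact Nat.mem_primeFactors.2 ⟨(hlarge p hp.1).1, hp.2, by omega⟩)
      (fun p hp => (hlarge p (mem_filter.1 hp).1).2)
    push_cast at h9
    refine le_trans ?_ (h9.trans h3)
    apply sum_le_sum
    intro p hp
    have := (hlarge p (mem_filter.1 hp).1).2
    exact one_div_le_one_div_of_le (by linarith) (by linarith)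
  have h9 : 0 ≤ ∑ p ∈ (pr Y a b).filter (fun p => p ∣ n), 1 / ((p : ℝ) - 1) := by
    apply sum_nonneg
    intro p hp
    have := (hlarge p (mem_filter.1 hp).1).2
    have : 0 < (p : ℝ) - 1 := by linarith
    positivity
  rw [h7]
  rw [abs_le] at h6 ⊢
  constructor <;> linarith [h6.1, h6.2]

end Pool.Agent.Y882
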