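import Pool.Agent.H38.LR.S8.Y882.FLW
import Pool.Agent.H38.LR.S8.Y882.LSW
import Pool.Agent.H38.LR.S8.Y882.Loc

/-! Universal lower bound weights of the linear sieve, all primes. -/

set_option autoImplicit false

open Finset Filter

namespace Pool.Agent.Y882

open Pool.Agent.W23.DC

open Classical in
/-- the primes `p ≤ Y`, `p < Y ^ ζ` -/
noncomputable def PZ (Y : ℕ) (ζ : ℝ) : Finset ℕ :=
  (Icc 1 Y).filter (fun p => p.Prime ∧ tt Y p < ζ)

theorem exJ (ε : ℝ) (hε : 0 < ε) : ∃ Y0 : ℕ, ∀ Y : ℕ, Y0 ≤ Y → ∃ J : ℕ,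
    (Y : ℝ) ^ ε ≤ 2 ^ 2 ^ J ∧ (2 : ℝ) ^ 2 ^ J ≤ (Y : ℝ) ^ (2 * ε) := by
  have h2 : ∀ᶠ Y : ℕ in atTop, (3 : ℝ) ≤ (Y : ℝ) ^ ε :=
    tendsto_natCast_atTop_atTop.eventually ((tendsto_rpow_atTop hε).eventually_ge_atTop 3)
  obtain ⟨Y0, hY0⟩ := eventually_atTop.1 h2
  refine ⟨Y0, fun Y hY => ?_⟩
  have h3 := hY0 Y hY
  classical
  have hex : ∃ J : ℕ, (Y : ℝ) ^ ε ≤ 2 ^ 2 ^ J := by
    obtain ⟨m, hm⟩ := pow_unbounded_of_one_lt ((Y : ℝ) ^ ε) (show (1 : ℝ) < 2 by norm_num)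
    refine ⟨m, hm.le.trans ?_⟩
    apply pow_le_pow_right₀ (by norm_num)
    exact Nat.lt_two_pow_self.le
  refine ⟨Nat.find hex, Nat.find_spec hex, ?_⟩
  have hJ0 : Nat.find hex ≠ 0 := by
    intro h
    have h4 := Nat.find_spec hex
    rw [h] at h4
    norm_num at h4
    linarith
  obtain ⟨J', hJ'⟩ := Nat.exists_eq_succ_of_ne_zero hJ0
  have h5 := Nat.find_min hex (show J' < Nat.find hex by omega)
  push Not at h5
  rw [hJ', Nat.succ_eq_add_one, pow_succ 2 J', pow_mul]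
  calc ((2 : ℝ) ^ 2 ^ J') ^ 2 ≤ ((Y : ℝ) ^ ε) ^ 2 := pow_le_pow_left₀ (by positivity) h5.le 2
    _ = (Y : ℝ) ^ (2 * ε) := by
        rw [← Real.rpow_natCast, ← Real.rpow_mul (by positivity)]
        congr 1
        push_cast
        ring

theorem tt_lt (Y p : ℕ) (ε : ℝ) (hY : 2 ≤ Y) (hp : 0 < p) :
    tt Y p < ε ↔ (p : ℝ) < (Y : ℝ) ^ ε := by
  have hYr : (2 : ℝ) ≤ Y := by exact_mod_cast hY
  have hlY : 0 < Real.log Y := Real.log_pos (by linarith)
  have hp0 : (0 : ℝ) < p := by exact_mod_cast hp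
  unfold tt
  rw [div_lt_iff₀ hlY, ← Real.log_lt_log_iff hp0 (by positivity), Real.log_rpow (by linarith)]

open Classical in
theorem core1 (τ ζ τ' : ℝ) (hζ : 0 < ζ) (h2 : 2 * ζ < τ) (h4 : τ ≤ 4 * ζ) (hτ : τ ≤ 1)
    (h5 : τ < τ') : ∃ c0 : ℝ, 0 < c0 ∧ ∃ Y0 : ℕ, ∀ Y : ℕ, Y0 ≤ Y → ∃ c : Finset ℕ → ℝ,
      (∀ T, |c T| ≤ 5 * Real.log Y) ∧
      (∀ T ⊆ PZ Y ζ, c T ≠ 0 → ((∏ p ∈ T, p : ℕ) : ℝ) ≤ (Y : ℝ) ^ τ') ∧
      (∀ N : ℕ, VV (PZ Y ζ) c (fun p => if p ∣ N then 1 else 0) ≤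
        (if ∀ p ∈ PZ Y ζ, ¬ p ∣ N then 1 else 0)) ∧
      ∀ n : ℕ, 1 ≤ n → n ≤ 2 * Y → Even n → c0 / Real.log Y * sgs n ≤ VV (PZ Y ζ) c (gn n) := by
  obtain ⟨C, hC1, HF⟩ := flw
  obtain ⟨f0, F0, hf0, hF0, HL⟩ := lsw τ ζ hζ h2 h4 hτ
  obtain ⟨b, hb1, hb2⟩ : ∃ b : ℕ, C * (1 + 1) ≤ b ∧ 2 * (1 / 2 : ℝ) ^ b * F0 ≤ f0 / 2 := by
    obtain ⟨m, hm⟩ := exists_pow_lt_of_lt_one (show 0 < f0 / (4 * F0) by positivity)
      (show (1 / 2 : ℝ) < 1 by norm_num)
    refine ⟨max m (C * (1 + 1)), le_max_right _ _, ?_⟩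
    have h6 : (1 / 2 : ℝ) ^ (max m (C * (1 + 1))) ≤ (1 / 2) ^ m :=
      pow_le_pow_of_le_one (by norm_num) (by norm_num) (le_max_left _ _)
    have h7 := h6.trans hm.le
    rw [le_div_iff₀ (by positivity)] at h7
    linarith
  have hCb : (1 : ℝ) ≤ C * b := by
    have : 1 ≤ C * b := Nat.mul_pos hC1 (by omega)
    exact_mod_cast this
  set ε₁ : ℝ := min ζ ((τ' - τ) / (4 * (C * b))) with hε₁
  have hε0 : 0 < ε₁ := lt_min hζ (div_pos (by linarith) (by linarith))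
  have hεζ : ε₁ ≤ ζ := min_le_left _ _
  have hεb : 2 * ε₁ * (C * b) ≤ (τ' - τ) / 2 := by
    have h6 : ε₁ ≤ (τ' - τ) / (4 * (C * b)) := min_le_right _ _
    rw [le_div_iff₀ (by linarith)] at h6
    linarith
  have hζ2 : ζ < 1 / 2 := by linarith
  obtain ⟨η, hη, HL'⟩ := HL ε₁ hε0 hεζ
  obtain ⟨Y1, hM⟩ := mer_gn ε₁ ζ η hε0 (by linarith) hη
  obtain ⟨cm, hcm, HP⟩ := prod_low
  obtain ⟨Y2, hJ⟩ := exJ ε₁ hε0
  set z0 : ℕ := C * (1 + 1) with hz0
  set B : ℕ := ∏ p ∈ (Icc 1 z0), p with hB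
  have hB1 : 1 ≤ B := by
    rw [hB]
    exact Nat.pos_of_ne_zero (prod_ne_zero_iff.2 fun p hp => by
      have := (mem_Icc.1 hp).1
      omega)
  have ev1 : ∀ᶠ Y : ℕ in atTop, (B : ℝ) ≤ (Y : ℝ) ^ ((τ' - τ) / 2) :=
    tendsto_natCast_atTop_atTop.eventually
      ((tendsto_rpow_atTop (by linarith)).eventually_ge_atTop _)
  have ev2 : ∀ᶠ Y : ℕ in atTop, (3 : ℝ) ≤ (Y : ℝ) ^ ε₁ :=
    tendsto_natCast_atTop_atTop.eventually ((tendsto_rpow_atTop hε0).eventually_ge_atTop 3)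
  have ev3 : ∀ᶠ Y : ℕ in atTop, 2 * Real.log (2 * Y) / ((Y : ℝ) ^ ε₁ - 2) ≤ 1 := by
    have h2 : Tendsto (fun y : ℝ => 2 * Real.log (2 * y) / (y ^ ε₁ - 2)) atTop (nhds 0) := by
      have h3 : Tendsto (fun y : ℝ => Real.log y / y ^ ε₁) atTop (nhds 0) :=
        (isLittleO_log_rpow_atTop hε0).tendsto_div_nhds_zero
      have h4 : Tendsto (fun y : ℝ => (y ^ ε₁)⁻¹) atTop (nhds 0) :=
        (tendsto_rpow_atTop hε0).inv_tendsto_atTop
      have h5 : Tendsto (fun y : ℝ => (2 * (Real.log 2 * (y ^ ε₁)⁻¹ + Real.log y / y ^ ε₁)) /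
          (1 - 2 * (y ^ ε₁)⁻¹)) atTop (nhds ((2 * (Real.log 2 * 0 + 0)) / (1 - 2 * 0))) :=
        ((((h4.const_mul _).add h3).const_mul 2).div ((h4.const_mul 2).const_sub 1) (by norm_num))
      rw [show (2 * (Real.log 2 * 0 + 0)) / (1 - 2 * (0 : ℝ)) = 0 by norm_num] at h5
      refine h5.congr' ?_
      filter_upwards [eventually_gt_atTop 0, (tendsto_rpow_atTop hε0).eventually_gt_atTop 2]
        with y hy hy2
      have h6 : (y ^ ε₁) ≠ 0 := by positivity
      have h7 : y ^ ε₁ - 2 ≠ 0 := by linarith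
      rw [Real.log_mul (by norm_num) hy.ne']
      field_simp
    exact tendsto_natCast_atTop_atTop.eventually (h2.eventually_le_const (by norm_num))
  obtain ⟨Y3, hY3⟩ := eventually_atTop.1 (ev1.and (ev2.and (ev3.and (eventually_ge_atTop 3))))
  refine ⟨cm * f0 * Real.log 2 / 4, by
    have := Real.log_pos (show (1 : ℝ) < 2 by norm_num)
    positivity, max Y1 (max Y2 Y3), ?_⟩
  intro Y hY
  have hYY1 : Y1 ≤ Y := (le_max_left _ _).trans hY
  have hYY2 : Y2 ≤ Y := ((le_max_left _ _).trans (le_max_right _ _)).trans hY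
  obtain ⟨e1, e2, e3, e4⟩ := hY3 Y (((le_max_right _ _).trans (le_max_right _ _)).trans hY)
  obtain ⟨J, hJ1, hJ2⟩ := hJ Y hYY2
  have hYr : (3 : ℝ) ≤ Y := by exact_mod_cast e4
  have hY1r : (1 : ℝ) ≤ Y := by linarith
  have hlY1 : 1 ≤ Real.log Y := by
    rw [Real.le_log_iff_exp_le (by linarith)]
    linarith [Real.exp_one_lt_d9]
  have hlY : 0 < Real.log Y := by linarith
  have hlog2 : 0.69 < Real.log 2 := by linarith [Real.log_two_gt_d9]
  -- size of J
  have hJlog : (2 : ℝ) ^ J * Real.log 2 ≤ 2 * ε₁ * Real.log Y := by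
    have h6 := Real.log_le_log (by positivity) hJ2
    rw [Real.log_rpow (by linarith), Real.log_pow] at h6
    push_cast at h6
    exact h6
  have hJc : (J : ℝ) + 3 ≤ 5 * Real.log Y := by
    have h6 : (J : ℝ) ≤ 2 ^ J := by exact_mod_cast Nat.lt_two_pow_self.le
    have h7 : (2 : ℝ) ^ J * 0.69 ≤ 2 * ε₁ * Real.log Y := by
      refine le_trans ?_ hJlog
      apply mul_le_mul_of_nonneg_left hlog2.le (by positivity)
    have h8 : ε₁ * Real.log Y ≤ 1 / 2 * Real.log Y := by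
      apply mul_le_mul_of_nonneg_right _ hlY.le
      linarith
    nlinarith
  -- the three sets of primes
  set P0 : Finset ℕ := (PZ Y ε₁).filter (fun p => p ≤ z0) with hP0
  set P1 : Finset ℕ := (PZ Y ε₁).filter (fun p => ¬ p ≤ z0) with hP1
  set P2 : Finset ℕ := pr Y ε₁ ζ with hP2
  have hQ : P0 ∪ P1 = PZ Y ε₁ := filter_union_filter_not_eq _ _
  have hd01 : Disjoint P0 P1 := disjoint_filter_filter_not _ _ _
  have hPZ : ∀ p, p ∈ PZ Y ε₁ → p.Prime ∧ p ≤ Y ∧ (p : ℝ) < (Y : ℝ) ^ ε₁ := by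
    intro p hp
    unfold PZ at hp
    rw [mem_filter, mem_Icc] at hp
    exact ⟨hp.2.1, hp.1.2, (tt_lt Y p ε₁ (by omega) hp.2.1.pos).1 hp.2.2⟩
  have hd2 : Disjoint (PZ Y ε₁) P2 := by
    rw [disjoint_left]
    intro p hp hp'
    unfold PZ at hp
    rw [hP2] at hp'
    unfold pr at hp'
    rw [mem_filter] at hp hp'
    linarith [hp.2.2, hp'.2.2.1]
  have hPall : PZ Y ε₁ ∪ P2 = PZ Y ζ := by
    ext p
    rw [mem_union, hP2]
    unfold PZ pr
    rw [mem_filter, mem_filter, mem_filter]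
    constructor
    · rintro (⟨h6, h7, h8⟩ | ⟨h6, h7, h8, h9⟩)
      · exact ⟨h6, h7, h8.trans_le hεζ⟩
      · exact ⟨h6, h7, h9⟩
    · rintro ⟨h6, h7, h8⟩
      rcases lt_or_ge (tt Y p) ε₁ with h9 | h9
      · exact Or.inl ⟨h6, h7, h9⟩
      · exact Or.inr ⟨h6, h7, h9, h8⟩
  have hlt2 : ∀ p ∈ PZ Y ε₁, p < 2 ^ 2 ^ J := by
    intro p hp
    have h6 := (hPZ p hp).2.2.trans_le hJ1
    exact_mod_cast h6
  -- the weights
  obtain ⟨cU, cL, g1, g2, g3, g4⟩ := HF 1 b J z0 P1 hb1 le_rfl (by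
    intro p hp
    rw [hP1, mem_filter] at hp
    exact ⟨(hPZ p hp.1).1, by omega, (hlt2 p hp.1).le⟩)
  obtain ⟨yU, yL, k1, k2, k3, k4⟩ := HL' Y (by omega)
  set W : (Finset ℕ → ℝ) → (Finset ℕ → ℝ) → Finset ℕ → ℝ := fun α β T =>
    (fun U => (-1) ^ (U ∩ P0).card * α (U ∩ P1)) (T ∩ PZ Y ε₁) * β (T ∩ P2) with hW
  have hVW : ∀ (α β : Finset ℕ → ℝ) (h : ℕ → ℝ), VV (PZ Y ζ) (W α β) h =
      (∏ p ∈ P0, (1 - h p)) * VV P1 α h * VV P2 β h := by
    intro α β h
    rw [← hPall]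
    have h6 := VV_union (PZ Y ε₁) P2 hd2 (fun U => (-1) ^ (U ∩ P0).card * α (U ∩ P1)) β h
    simp only [hW]
    rw [h6]
    congr 1
    have h7 := VV_union P0 P1 hd01 (fun U => (-1) ^ U.card) α h
    rw [VV_mu, hQ] at h7
    exact h7
  have hWle : ∀ (α β : Finset ℕ → ℝ) (T : Finset ℕ), |W α β T| =
      |α ((T ∩ PZ Y ε₁) ∩ P1)| * |β (T ∩ P2)| := by
    intro α β T
    simp only [hW]
    rw [abs_mul, abs_mul, abs_neg_one_pow, one_mul]
  refine ⟨fun T => W cL yU T + W cU yL T - W cU yU T, ?_, ?_, ?_, ?_⟩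
  · intro T
    have h6 := hWle cL yU T
    have h7 := hWle cU yL T
    have h8 := hWle cU yU T
    set U1 := (T ∩ PZ Y ε₁) ∩ P1
    set U2 := T ∩ P2
    have h9 : |W cL yU T| ≤ J + 1 := by
      rw [h6]
      calc |cL U1| * |yU U2| ≤ (J + 1) * 1 := by
            apply mul_le_mul (g1 U1).2 (k1 U2).1 (abs_nonneg _) (by positivity)
        _ = J + 1 := mul_one _
    have h10 : |W cU yL T| ≤ 1 := by
      rw [h7]
      calc |cU U1| * |yL U2| ≤ 1 * 1 := by
            apply mul_le_mul (g1 U1).1 (k1 U2).2 (abs_nonneg _) (by positivity)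
        _ = 1 := mul_one _
    have h11 : |W cU yU T| ≤ 1 := by
      rw [h8]
      calc |cU U1| * |yU U2| ≤ 1 * 1 := by
            apply mul_le_mul (g1 U1).1 (k1 U2).1 (abs_nonneg _) (by positivity)
        _ = 1 := mul_one _
    calc |W cL yU T + W cU yL T - W cU yU T| ≤ |W cL yU T + W cU yL T| + |W cU yU T| := abs_sub _ _
      _ ≤ |W cL yU T| + |W cU yL T| + |W cU yU T| := by
          have := abs_add_le (W cL yU T) (W cU yL T)
          linarith
      _ ≤ 5 * Real.log Y := by linarith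
  · intro T hT hne
    -- one of the three is nonzero
    have hne1 : (cU ((T ∩ PZ Y ε₁) ∩ P1) ≠ 0 ∨ cL ((T ∩ PZ Y ε₁) ∩ P1) ≠ 0) := by
      by_contra hc
      push Not at hc
      apply hne
      show W cL yU T + W cU yL T - W cU yU T = 0
      simp only [hW, hc.1, hc.2]
      ring
    have hne2 : (yU (T ∩ P2) ≠ 0 ∨ yL (T ∩ P2) ≠ 0) := by
      by_contra hc
      push Not at hc
      apply hne
      show W cL yU T + W cU yL T - W cU yU T = 0
      simp only [hW, hc.1, hc.2]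
      ring
    have h6 := g2 _ inter_subset_right hne1
    have h7 := k2 _ inter_subset_right hne2
    have h8 : T = ((T ∩ P0) ∪ ((T ∩ PZ Y ε₁) ∩ P1)) ∪ (T ∩ P2) := by
      ext p
      simp only [mem_union, mem_inter]
      constructor
      · intro hp
        have h9 := hT hp
        rw [← hPall, mem_union] at h9
        rcases h9 with h9 | h9
        · have h10 := h9
          rw [← hQ, mem_union] at h10
          rcases h10 with h10 | h10
          · exact Or.inl (Or.inl ⟨hp, h10⟩)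
          · exact Or.inl (Or.inr ⟨⟨hp, h9⟩, h10⟩)
        · exact Or.inr ⟨hp, h9⟩
      · rintro ((h | h) | h)
        · exact h.1
        · exact h.1.1
        · exact h.1
    have hpos : ∀ S ⊆ T, 1 ≤ ∏ p ∈ S, p := by
      intro S hS
      refine Nat.pos_of_ne_zero (prod_ne_zero_iff.2 fun p hp => ?_)
      have := hT (hS hp)
      unfold PZ at this
      rw [mem_filter] at this
      exact this.2.1.ne_zero
    have h9 : ∏ p ∈ T, p ≤ ((∏ p ∈ T ∩ P0, p) * ∏ p ∈ (T ∩ PZ Y ε₁) ∩ P1, p) *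
        ∏ p ∈ T ∩ P2, p := by
      conv_lhs => rw [h8]
      have u1 : ∏ p ∈ ((T ∩ P0) ∪ ((T ∩ PZ Y ε₁) ∩ P1)) ∪ (T ∩ P2), p ≤
          (∏ p ∈ ((T ∩ P0) ∪ ((T ∩ PZ Y ε₁) ∩ P1)), p) * ∏ p ∈ (T ∩ P2), p := by
        rw [← prod_union_inter]
        apply Nat.le_mul_of_pos_right
        exact hpos _ (inter_subset_right.trans inter_subset_left)
      have u2 : ∏ p ∈ ((T ∩ P0) ∪ ((T ∩ PZ Y ε₁) ∩ P1)), p ≤
          (∏ p ∈ (T ∩ P0), p) * ∏ p ∈ ((T ∩ PZ Y ε₁) ∩ P1), p := by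
        rw [← prod_union_inter]
        apply Nat.le_mul_of_pos_right
        exact hpos _ (inter_subset_left.trans inter_subset_left)
      exact u1.trans (Nat.mul_le_mul_right _ u2)
    have h10 : ∏ p ∈ T ∩ P0, p ≤ B := by
      rw [hB]
      apply prod_le_prod_of_subset_of_one_le'
      · intro p hp
        have h11 := (mem_inter.1 hp).2
        rw [hP0, mem_filter] at h11
        exact mem_Icc.2 ⟨(hPZ p h11.1).1.pos, h11.2⟩
      · intro p hp _
        exact (mem_Icc.1 hp).1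
    have h11 : ((∏ p ∈ T, p : ℕ) : ℝ) ≤ ((B : ℝ) * ((2 : ℝ) ^ 2 ^ J) ^ (C * b)) *
        ((∏ p ∈ T ∩ P2, p : ℕ) : ℝ) := by
      have h12 : ∏ p ∈ T, p ≤ (B * (2 ^ 2 ^ J) ^ (C * b)) * ∏ p ∈ T ∩ P2, p :=
        h9.trans (Nat.mul_le_mul_right _ (Nat.mul_le_mul h10 h6))
      exact_mod_cast h12
    refine h11.trans ?_
    calc ((B : ℝ) * ((2 : ℝ) ^ 2 ^ J) ^ (C * b)) * ((∏ p ∈ T ∩ P2, p : ℕ) : ℝ) ≤
        ((Y : ℝ) ^ ((τ' - τ) / 2) * ((Y : ℝ) ^ (2 * ε₁)) ^ (C * b)) * (Y : ℝ) ^ τ := by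
          gcongr
      _ ≤ ((Y : ℝ) ^ ((τ' - τ) / 2) * (Y : ℝ) ^ ((τ' - τ) / 2)) * (Y : ℝ) ^ τ := by
          gcongr
          rw [← Real.rpow_natCast, ← Real.rpow_mul (by linarith)]
          apply Real.rpow_le_rpow_of_exponent_le hY1r
          push_cast
          exact hεb
      _ = (Y : ℝ) ^ τ' := by
          rw [← Real.rpow_add (by linarith), ← Real.rpow_add (by linarith)]
          congr 1
          ring
  · intro N
    rw [VV_sub, VV_add, hVW, hVW, hVW]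
    obtain ⟨a1, a2⟩ := g3 N
    obtain ⟨a3, a4⟩ := k3 N
    set h : ℕ → ℝ := fun p => if p ∣ N then 1 else 0 with hh
    have hX0 : ∏ p ∈ P0, (1 - h p) = if ∀ p ∈ P0, ¬ p ∣ N then 1 else 0 := by
      have : ∀ p ∈ P0, 1 - h p = if ¬ p ∣ N then 1 else 0 := by
        intro p _
        simp only [hh]
        split_ifs <;> norm_num
      rw [prod_congr rfl this, Finset.prod_ite_zero]
      simp
    rw [hX0]
    set x : ℝ := if ∀ p ∈ P1, ¬ p ∣ N then 1 else 0 with hx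
    set y : ℝ := if ∀ p ∈ P2, ¬ p ∣ N then 1 else 0 with hy
    have hx0 : 0 ≤ x := by rw [hx]; split_ifs <;> norm_num
    have hy0 : 0 ≤ y := by rw [hy]; split_ifs <;> norm_num
    set L := VV P1 cL h
    set U := VV P1 cU h
    set l := VV P2 yL h
    set u := VV P2 yU h
    have key : L * u + U * l - U * u ≤ x * y := by
      have b1 : 0 ≤ (U - x) * (u - l) := mul_nonneg (by linarith) (by linarith)
      have b2 : 0 ≤ x * (y - l) := mul_nonneg hx0 (by linarith)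
      have b3 : 0 ≤ (x - L) * u := mul_nonneg (by linarith) (by linarith)
      nlinarith
    by_cases hc0 : ∀ p ∈ P0, ¬ p ∣ N
    · rw [if_pos hc0]
      have hxy : x * y = if ∀ p ∈ PZ Y ζ, ¬ p ∣ N then (1 : ℝ) else 0 := by
        by_cases hc1 : ∀ p ∈ P1, ¬ p ∣ N
        · by_cases hc2 : ∀ p ∈ P2, ¬ p ∣ N
          · rw [hx, hy, if_pos hc1, if_pos hc2, if_pos, mul_one]
            intro p hp
            rw [← hPall, ← hQ, mem_union, mem_union] at hp
            rcases hp with (hp | hp) | hp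
            · exact hc0 p hp
            · exact hc1 p hp
            · exact hc2 p hp
          · rw [hy, if_neg hc2, if_neg, mul_zero]
            intro hc
            apply hc2
            intro p hp
            exact hc p (by rw [← hPall]; exact mem_union_right _ hp)
        · rw [hx, if_neg hc1, if_neg, zero_mul]
          intro hc
          apply hc1
          intro p hp
          exact hc p (by rw [← hPall, ← hQ]; exact mem_union_left _ (mem_union_right _ hp))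
      rw [← hxy]
      linarith
    · rw [if_neg hc0]
      have : (0 : ℝ) ≤ if ∀ p ∈ PZ Y ζ, ¬ p ∣ N then (1 : ℝ) else 0 := by
        split_ifs <;> norm_num
      simpa using this
  · intro n hn1 hnY hev
    rw [VV_sub, VV_add, hVW, hVW, hVW]
    have hgn0 : ∀ p ∈ P1, 0 ≤ gn n p ∧ gn n p ≤ ((1 : ℕ) : ℝ) / ((p : ℝ) - 1) := by
      intro p hp
      rw [hP1, mem_filter] at hp
      have h6 : (2 : ℝ) ≤ p := by exact_mod_cast (hPZ p hp.1).1.two_le
      have h7 : 0 ≤ 1 / ((p : ℝ) - 1) := div_nonneg zero_le_one (by linarith)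
      unfold gn
      push_cast
      split_ifs
      · exact ⟨le_rfl, h7⟩
      · exact ⟨h7, le_rfl⟩
    have hgn2 : ∀ p ∈ P2, 0 ≤ gn n p := by
      intro p hp
      rw [hP2] at hp
      unfold pr at hp
      rw [mem_filter] at hp
      have h6 : (2 : ℝ) ≤ p := by exact_mod_cast hp.2.1.two_le
      unfold gn
      split_ifs
      · exact le_rfl
      · exact div_nonneg zero_le_one (by linarith)
    obtain ⟨a1, a2, a3, a4⟩ := g4 (gn n) hgn0
    obtain ⟨a5, a6⟩ := k4 (gn n) hgn2 (hM Y hYY1 n hn1 hnY)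
    have hbig : ∑ p ∈ (n.primeFactors.erase 2).filter (fun p => p ∉ PZ Y ε₁),
        1 / ((p : ℝ) - 2) ≤ 1 := by
      have h6 := big_pf n (2 * Y) hn1 ((Y : ℝ) ^ ε₁) e2 (by exact_mod_cast hnY)
        ((n.primeFactors.erase 2).filter (fun p => p ∉ PZ Y ε₁))
        ((filter_subset _ _).trans (erase_subset _ _)) (by
          intro p hp
          rw [mem_filter, mem_erase] at hp
          obtain ⟨⟨h7, h8⟩, h9⟩ := hp
          have hpp := Nat.prime_of_mem_primeFactors h8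
          by_contra hc
          push Not at hc
          apply h9
          unfold PZ
          rw [mem_filter, mem_Icc]
          refine ⟨⟨hpp.pos, ?_⟩, hpp, (tt_lt Y p ε₁ (by omega) hpp.pos).2 hc⟩
          have h10 : (p : ℝ) ≤ Y := by
            refine hc.le.trans ?_
            calc (Y : ℝ) ^ ε₁ ≤ (Y : ℝ) ^ (1 : ℝ) :=
                  Real.rpow_le_rpow_of_exponent_le hY1r (by linarith)
              _ = Y := Real.rpow_one _
          exact_mod_cast h10)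
      push_cast at h6
      exact h6.trans e3
    have hV := HP J n (PZ Y ε₁) hn1 hev (fun p hp => ⟨(hPZ p hp).1, hlt2 p hp⟩) hbig
    have hVV : ∏ p ∈ PZ Y ε₁, (1 - gn n p) = (∏ p ∈ P0, (1 - gn n p)) * ∏ p ∈ P1, (1 - gn n p) := by
      rw [← hQ, prod_union hd01]
    rw [hVV] at hV
    set V0 := ∏ p ∈ P0, (1 - gn n p)
    set V1 := ∏ p ∈ P1, (1 - gn n p)
    have hfac : ∀ p ∈ PZ Y ε₁, 0 ≤ 1 - gn n p := by
      intro p hp
      have h6 := (hPZ p hp).1
      unfold gn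
      split_ifs with h7
      · norm_num
      · have h8 : 3 ≤ p := by
          have := h6.two_le
          rcases Nat.lt_or_ge 2 p with h9 | h9
          · omega
          · have h10 : p = 2 := by omega
            exact absurd (h10 ▸ hev.two_dvd) h7
        have h9 : (3 : ℝ) ≤ p := by exact_mod_cast h8
        have : 1 / ((p : ℝ) - 1) ≤ 1 := by
          rw [div_le_one (by linarith)]; linarith
        linarith
    have hV0 : 0 ≤ V0 := prod_nonneg fun p hp => hfac p (by rw [← hQ]; exact mem_union_left _ hp)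
    have hV1 : 0 ≤ V1 := prod_nonneg fun p hp => hfac p (by rw [← hQ]; exact mem_union_right _ hp)
    set L := VV P1 cL (gn n)
    set U := VV P1 cU (gn n)
    set l := VV P2 yL (gn n)
    set u := VV P2 yU (gn n)
    have key : V1 * (ε₁ * f0 / 2) ≤ L * u + U * l - U * u := by
      have b1 : V1 * (ε₁ * f0) ≤ U * l := mul_le_mul a3 a5 (by positivity) (hV1.trans a3)
      have b2 : (U - L) * u ≤ (U - L) * (ε₁ * F0) := mul_le_mul_of_nonneg_left a6 (by linarith)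
      have b3 : (U - L) * (ε₁ * F0) ≤ (2 * (1 / 2) ^ b * V1) * (ε₁ * F0) := by
        apply mul_le_mul_of_nonneg_right _ (by positivity)
        linarith
      have b4 : (2 * (1 / 2) ^ b * V1) * (ε₁ * F0) ≤ V1 * (ε₁ * (f0 / 2)) := by
        calc (2 * (1 / 2) ^ b * V1) * (ε₁ * F0) = V1 * (ε₁ * (2 * (1 / 2) ^ b * F0)) := by ring
          _ ≤ V1 * (ε₁ * (f0 / 2)) := by gcongr
      nlinarith
    have hs0 : 0 ≤ sgs n := by
      unfold sgs
      apply prod_nonneg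
      intro p hp
      rw [mem_erase] at hp
      have h6 := (Nat.prime_of_mem_primeFactors hp.2).two_le
      have h7 : (3 : ℝ) ≤ p := by
        have : 3 ≤ p := by omega
        exact_mod_cast this
      apply div_nonneg <;> linarith
    calc cm * f0 * Real.log 2 / 4 / Real.log Y * sgs n ≤ cm / 2 ^ J * sgs n * (ε₁ * f0 / 2) := by
          have h6 : Real.log 2 / (4 * Real.log Y) ≤ ε₁ / (2 * 2 ^ J) := by
            rw [div_le_div_iff₀ (by positivity) (by positivity)]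
            linarith
          calc cm * f0 * Real.log 2 / 4 / Real.log Y * sgs n =
              (cm * f0 * sgs n) * (Real.log 2 / (4 * Real.log Y)) := by
                field_simp
            _ ≤ (cm * f0 * sgs n) * (ε₁ / (2 * 2 ^ J)) :=
                mul_le_mul_of_nonneg_left h6 (by positivity)
            _ = _ := by
                field_simp
      _ ≤ (V0 * V1) * (ε₁ * f0 / 2) := mul_le_mul_of_nonneg_right hV (by positivity)
      _ = V0 * (V1 * (ε₁ * f0 / 2)) := by ring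
      _ ≤ V0 * (L * u + U * l - U * u) := mul_le_mul_of_nonneg_left key hV0
      _ = V0 * L * u + V0 * U * l - V0 * U * u := by ring

end Pool.Agent.Y882
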